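import Mathlib

set_option maxHeartbeats 400000

open Set Filter Topology

namespace Pool.Agent.Results.MP_2e9c83_an.Full

universe u v

/-- absolutely strongly exposing operators -/
def ASE {𝕜 : Type} {X : Type u} {Y : Type v} [RCLike 𝕜] [NormedAddCommGroup X] [NormedSpace 𝕜 X]
    [NormedAddCommGroup Y] [NormedSpace 𝕜 Y] (T : X →L[𝕜] Y) : Prop :=
  ∃ x₀ : X, ‖x₀‖ = 1 ∧ ∀ x : ℕ → X, (∀ n, ‖x n‖ ≤ 1) →
    Tendsto (fun n => ‖T (x n)‖) atTop (𝓝 ‖T‖) →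
    ∃ σ : ℕ → ℕ, StrictMono σ ∧ ∃ l : 𝕜, ‖l‖ = 1 ∧
      Tendsto (fun n => x (σ n)) atTop (𝓝 (l • x₀))

/-- range strongly exposing operators -/
def RSE {𝕜 : Type} {X : Type u} {Y : Type v} [RCLike 𝕜] [NormedAddCommGroup X] [NormedSpace 𝕜 X]
    [NormedAddCommGroup Y] [NormedSpace 𝕜 Y] (T : X →L[𝕜] Y) : Prop :=
  ∃ x₀ : X, ‖x₀‖ = 1 ∧ ∀ x : ℕ → X, (∀ n, ‖x n‖ ≤ 1) →
    Tendsto (fun n => ‖T (x n)‖) atTop (𝓝 ‖T‖) →
    ∃ σ : ℕ → ℕ, StrictMono σ ∧ ∃ l : 𝕜, ‖l‖ = 1 ∧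
      Tendsto (fun n => T (x (σ n))) atTop (𝓝 (l • T x₀))

/-- the pair (X, Y) has the BPBp-RSE -/
def BPBpRSE (𝕜 : Type) (X : Type u) (Y : Type v) [RCLike 𝕜] [NormedAddCommGroup X]
    [NormedSpace 𝕜 X] [NormedAddCommGroup Y] [NormedSpace 𝕜 Y] : Prop :=
  ∀ ε : ℝ, 0 < ε → ∃ η : ℝ, 0 < η ∧ η < ε ∧ ∀ (T : X →L[𝕜] Y) (x : X), ‖T‖ = 1 → ‖x‖ = 1 →
    1 - η < ‖T x‖ → ∃ (S : X →L[𝕜] Y) (x₀ : X), RSE S ∧ ‖x₀‖ = 1 ∧ ‖S‖ = 1 ∧ ‖S x₀‖ = 1 ∧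
      ‖S - T‖ < ε ∧ ‖x - x₀‖ < ε

/-- the pair (X, Y) has the BPBp-ASE -/
def BPBpASE (𝕜 : Type) (X : Type u) (Y : Type v) [RCLike 𝕜] [NormedAddCommGroup X]
    [NormedSpace 𝕜 X] [NormedAddCommGroup Y] [NormedSpace 𝕜 Y] : Prop :=
  ∀ ε : ℝ, 0 < ε → ∃ η : ℝ, 0 < η ∧ η < ε ∧ ∀ (T : X →L[𝕜] Y) (x : X), ‖T‖ = 1 → ‖x‖ = 1 →
    1 - η < ‖T x‖ → ∃ (S : X →L[𝕜] Y) (x₀ : X), ASE S ∧ ‖x₀‖ = 1 ∧ ‖S‖ = 1 ∧ ‖S x₀‖ = 1 ∧
      ‖S - T‖ < ε ∧ ‖x - x₀‖ < ε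

lemma core {𝕜 : Type} {X : Type u} {Z : Type v} [RCLike 𝕜] [NormedAddCommGroup X]
    [NormedSpace 𝕜 X] [NormedAddCommGroup Z] [NormedSpace 𝕜 Z]
    (H : BPBpRSE 𝕜 X (WithLp 1 (Z × X))) : BPBpASE 𝕜 X Z := by
  intro ε hε
  set δ := min ε 1 / 4 with hδ
  have d0 : 0 < δ := by positivity
  have d1 : δ ≤ ε / 4 := by have := min_le_left ε 1; linarith
  have d2 : δ ≤ 1 / 4 := by have := min_le_right ε 1; linarith
  obtain ⟨η, h0, h1, H⟩ := H (δ / 2) (by positivity)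
  refine ⟨η, h0, by linarith, fun T x hT hx h => ?_⟩
  set e := WithLp.prodContinuousLinearEquiv 1 𝕜 Z X with he
  have nn : ∀ w : WithLp 1 (Z × X), ‖w‖ = ‖(e w).1‖ + ‖(e w).2‖ := fun w =>
    WithLp.prod_norm_eq_of_L1 w
  set a : 𝕜 := ((1 - δ : ℝ) : 𝕜) with ha
  set b : 𝕜 := ((δ : ℝ) : 𝕜) with hb
  have na : ‖a‖ = 1 - δ := by rw [ha, RCLike.norm_ofReal, abs_of_pos (by linarith)]
  have nb : ‖b‖ = δ := by rw [hb, RCLike.norm_ofReal, abs_of_pos d0]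
  have ab : a + b = 1 := by rw [ha, hb, ← RCLike.ofReal_add]; simp
  set T' : X →L[𝕜] WithLp 1 (Z × X) := (e.symm : Z × X →L[𝕜] _).comp
    ((a • T).prod (b • ContinuousLinearMap.id 𝕜 X)) with hT'
  have t1 : ∀ y, e (T' y) = (a • T y, b • y) := fun y => rfl
  have t2 : ∀ y, ‖T' y‖ = (1 - δ) * ‖T y‖ + δ * ‖y‖ := fun y => by
    rw [nn, t1, norm_smul, norm_smul, na, nb]
  have Tl : ∀ y, ‖T y‖ ≤ ‖y‖ := fun y => by simpa [hT] using T.le_opNorm y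
  have t3 : ‖T'‖ = 1 := by
    refine le_antisymm (T'.opNorm_le_bound zero_le_one fun y => ?_) ?_
    · have := Tl y
      rw [t2]; nlinarith
    · have k : ∀ y, ‖y‖ = 1 → ‖T y‖ ≤ (‖T'‖ - δ) / (1 - δ) := fun y hy => by
        have := T'.le_opNorm y
        rw [t2, hy] at this
        rw [le_div_iff₀ (by linarith)]; linarith
      have := T.opNorm_le_of_unit_norm ((norm_nonneg _).trans (k x hx)) k
      rw [hT, le_div_iff₀ (by linarith)] at this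
      linarith
  obtain ⟨U, x₀, ⟨x₁, u0, u1⟩, u2, u3, u4, u5, u6⟩ := H T' x t3 hx (by rw [t2, hx]; nlinarith)
  have dl : ∀ y, ‖(e (U y)).1 - a • T y‖ + ‖(e (U y)).2 - b • y‖ ≤ δ / 2 * ‖y‖ := fun y => by
    have := ((U - T').le_opNorm y).trans (mul_le_mul_of_nonneg_right u5.le (norm_nonneg _))
    rw [nn, sub_apply, map_sub, t1] at this
    exact this
  have s2 : ∀ y, ‖(e (U y)).2‖ ≤ 3 * δ / 2 * ‖y‖ := fun y => by
    have a1 := norm_sub_norm_le (e (U y)).2 (b • y)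
    rw [norm_smul, nb] at a1
    linarith [dl y, norm_nonneg ((e (U y)).1 - a • T y)]
  have lo : ∀ y, δ / 2 * ‖y‖ ≤ ‖U y‖ := fun y => by
    have a1 := norm_sub_norm_le (b • y) (e (U y)).2
    rw [norm_smul, nb, norm_sub_rev] at a1
    rw [nn]
    linarith [dl y, norm_nonneg ((e (U y)).1 - a • T y), norm_nonneg (e (U y)).1]
  have p0 : 0 < ‖(e (U x₀)).1‖ := by
    have := s2 x₀
    rw [nn] at u4
    rw [u2] at this
    linarith
  obtain ⟨g, g1, g2⟩ := exists_dual_vector'' 𝕜 (e (U x₀)).2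
  set z : Z := ((‖(e (U x₀)).1‖⁻¹ : ℝ) : 𝕜) • (e (U x₀)).1 with hz
  have nz : ‖z‖ = 1 := by
    rw [hz, norm_smul, RCLike.norm_ofReal, abs_of_pos (by positivity), inv_mul_cancel₀ p0.ne']
  set S : X →L[𝕜] Z := (ContinuousLinearMap.fst 𝕜 Z X).comp ((e : _ →L[𝕜] Z × X).comp U) +
    (g.comp ((ContinuousLinearMap.snd 𝕜 Z X).comp ((e : _ →L[𝕜] Z × X).comp U))).smulRight z
    with hS
  have Sa : ∀ y, S y = (e (U y)).1 + g (e (U y)).2 • z := fun y => rfl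
  have gl : ∀ w, ‖g w • z‖ ≤ ‖w‖ := fun w => by
    rw [norm_smul, nz, mul_one]
    exact (g.le_opNorm w).trans (mul_le_of_le_one_left (norm_nonneg _) g1)
  have Sl : ∀ y, ‖S y‖ ≤ ‖U y‖ := fun y => by
    rw [Sa, nn]; exact (norm_add_le _ _).trans (by linarith [gl (e (U y)).2])
  have S0 : ‖S x₀‖ = 1 := by
    have a1 : (e (U x₀)).1 = ((‖(e (U x₀)).1‖ : ℝ) : 𝕜) • z := by
      rw [hz, smul_smul, ← RCLike.ofReal_mul, mul_inv_cancel₀ p0.ne', RCLike.ofReal_one, one_smul]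
    rw [Sa, g2, a1, ← add_smul, ← RCLike.ofReal_add, ← nn, u4, RCLike.ofReal_one, one_smul, nz]
  have S1 : ‖S‖ = 1 := by
    refine le_antisymm (S.opNorm_le_bound zero_le_one fun y => (Sl y).trans ?_) ?_
    · rw [← u3]; exact U.le_opNorm y
    · have := S.le_opNorm x₀
      rwa [S0, u2, mul_one] at this
  refine ⟨S, x₀, ⟨x₁, u0, fun w hw hl => ?_⟩, u2, S1, S0, ?_, by linarith⟩
  · obtain ⟨σ, s1, l, l1, l2⟩ := u1 w hw (by
      refine tendsto_of_tendsto_of_tendsto_of_le_of_le (by rwa [u3, ← S1]) tendsto_const_nhds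
        (fun n => Sl (w n)) fun n => ?_
      exact (U.le_opNorm _).trans (mul_le_of_le_one_right (norm_nonneg _) (hw n)))
    refine ⟨σ, s1, l, l1, ?_⟩
    rw [tendsto_iff_norm_sub_tendsto_zero] at l2 ⊢
    refine squeeze_zero (fun _ => norm_nonneg _) (fun n => ?_)
      (by simpa using l2.const_mul (2 / δ))
    have := lo (w (σ n) - l • x₁)
    rw [map_sub, map_smul] at this
    rw [div_mul_eq_mul_div, le_div_iff₀ d0]
    linarith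
  · refine lt_of_le_of_lt (ContinuousLinearMap.opNorm_le_bound _ (M := 3 * δ) (by positivity)
      fun y => ?_) (by linarith)
    have a1 : (S - T) y = ((e (U y)).1 - a • T y) + g (e (U y)).2 • z - b • T y := by
      rw [sub_apply, Sa]
      have : T y = a • T y + b • T y := by rw [← add_smul, ab, one_smul]
      nth_rewrite 1 [this]
      abel
    have a2 : ‖b • T y‖ ≤ δ * ‖y‖ := by
      rw [norm_smul, nb]; exact mul_le_mul_of_nonneg_left (Tl y) d0.le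
    rw [a1]
    refine (norm_sub_le _ _).trans ?_
    linarith [norm_add_le ((e (U y)).1 - a • T y) (g (e (U y)).2 • z), gl (e (U y)).2, s2 y, dl y,
      norm_nonneg ((e (U y)).2 - b • y)]

theorem result (𝕜 : Type) [RCLike 𝕜] (X : Type u) [NormedAddCommGroup X] [NormedSpace 𝕜 X]
    [CompleteSpace X]
    (H : ∀ (Z : Type (max u v)) [NormedAddCommGroup Z] [NormedSpace 𝕜 Z] [CompleteSpace Z],
      BPBpRSE 𝕜 X Z)
    (Z : Type (max u v)) [NormedAddCommGroup Z] [NormedSpace 𝕜 Z] [CompleteSpace Z] :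
    BPBpASE 𝕜 X Z :=
  core (H (WithLp 1 (Z × X)))

end Pool.Agent.Results.MP_2e9c83_an.Full
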